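import Mathlib
import Pool.Agent.H84.SnB

namespace Pool.Agent.Results.MP_e04a0d_gt.Yes

open Pool.Agent.H84.SnDefs

universe u

theorem result (X : Type u) [τ : TopologicalSpace X] [TopologicalSpace.MetrizableSpace X]
    (h : CountableDim X) (hi : DimInf X) :
    Sn M0 τ = ((Cardinal.aleph0 : Cardinal.{u}) : WithTop Cardinal.{u}) :=
  Pool.Agent.H84.SnB.sn_aleph0 X h hi

end Pool.Agent.Results.MP_e04a0d_gt.Yes
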